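import Pool.Agent.helper7.PQ.Spec

/-!
# pq:DIG, counting with digits

Helper file for MP_ebc808_nt (project pq).
-/

set_option autoImplicit false

namespace Pool.Agent.PQ

open Finset

open Classical in
theorem DIG_fibre (f : ℕ → ZMod 2) (T : ℕ) (hT : 0 < T)
    (h : ∀ (a : ℕ) (e : ZMod 2), ∃ x ∈ Ico a (a + T), f x ≠ e) (ν V : ℕ) (e : ZMod 2) :
    #{U ∈ Ico (ν * V) (ν * V + ν) | f U = e} ≤ ν - ν / T := by
  have h1 : ν / T ≤ #{U ∈ Ico (ν * V) (ν * V + ν) | ¬ f U = e} := by
    choose g hg hg' using h
    have h2 : #(range (ν / T)) ≤ #{U ∈ Ico (ν * V) (ν * V + ν) | ¬ f U = e} := by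
      apply Finset.card_le_card_of_injOn (fun l => g (ν * V + l * T) e)
      · intro l hl
        have hl' : l < ν / T := by simpa using hl
        have h3 : (l + 1) * T ≤ ν := by
          calc (l + 1) * T ≤ (ν / T) * T := Nat.mul_le_mul_right _ hl'
            _ ≤ ν := Nat.div_mul_le_self _ _
        have h4 := hg (ν * V + l * T) e
        rw [Finset.mem_Ico] at h4
        have h5 : (l + 1) * T = l * T + T := by ring
        have h6 : ν * V ≤ g (ν * V + l * T) e ∧ g (ν * V + l * T) e < ν * V + ν := by omega
        rw [Finset.mem_coe, Finset.mem_filter, Finset.mem_Ico]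
        exact ⟨h6, hg' _ _⟩
      · intro l _ l' _ hll
        have h4 := hg (ν * V + l * T) e
        have h4' := hg (ν * V + l' * T) e
        simp only at hll
        rw [Finset.mem_Ico] at h4 h4'
        rw [hll] at h4
        rcases Nat.lt_trichotomy l l' with hlt | heq | hlt
        · exfalso
          have h5 : (l + 1) * T ≤ l' * T := Nat.mul_le_mul_right _ hlt
          have h6 : (l + 1) * T = l * T + T := by ring
          omega
        · exact heq
        · exfalso
          have h5 : (l' + 1) * T ≤ l * T := Nat.mul_le_mul_right _ hlt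
          have h6 : (l' + 1) * T = l' * T + T := by ring
          omega
    rwa [Finset.card_range] at h2
  have h2 := Finset.card_filter_add_card_filter_not (s := Ico (ν * V) (ν * V + ν)) (fun U => f U = e)
  rw [Nat.card_Ico] at h2
  omega

theorem DIG : DIG_stmt := by
  classical
  intro f T hT h ν K a c e hν
  induction K with
  | zero =>
    rw [pow_zero, pow_zero, one_mul, one_mul, mul_one]
    exact (Finset.card_filter_le _ _).trans (by rw [Nat.card_Ico])
  | succ K ih =>
    have h1 : #{U ∈ Ico (ν ^ (K + 1) * a) (ν ^ (K + 1) * c) | ∀ i ≤ K + 1, f (U / ν ^ i) = e} ≤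
        (ν - ν / T) * #{U ∈ Ico (ν ^ K * a) (ν ^ K * c) | ∀ i ≤ K, f (U / ν ^ i) = e} := by
      apply Finset.card_le_mul_card_image_of_maps_to (f := fun U => U / ν)
      · intro U hU
        rw [Finset.mem_filter, Finset.mem_Ico] at hU
        obtain ⟨⟨h2, h3⟩, h4⟩ := hU
        rw [Finset.mem_filter, Finset.mem_Ico]
        refine ⟨⟨?_, ?_⟩, fun i hi => ?_⟩
        · rw [Nat.le_div_iff_mul_le hν]
          calc ν ^ K * a * ν = ν ^ (K + 1) * a := by ring
            _ ≤ U := h2
        · rw [Nat.div_lt_iff_lt_mul hν]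
          calc U < ν ^ (K + 1) * c := h3
            _ = ν ^ K * c * ν := by ring
        · rw [Nat.div_div_eq_div_mul, ← pow_succ']
          exact h4 (i + 1) (by omega)
      · intro V _
        refine le_trans (Finset.card_le_card ?_) (DIG_fibre f T hT h ν V e)
        intro U hU
        rw [Finset.mem_filter, Finset.mem_filter] at hU
        obtain ⟨⟨_, h4⟩, h5⟩ := hU
        rw [Finset.mem_filter, Finset.mem_Ico]
        have h6 := h4 0 (Nat.zero_le _)
        rw [pow_zero, Nat.div_one] at h6
        have h7 := Nat.div_add_mod U ν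
        have h8 := Nat.mod_lt U hν
        rw [h5] at h7
        exact ⟨⟨by omega, by omega⟩, h6⟩
    calc _ ≤ _ := h1
      _ ≤ (ν - ν / T) * ((c - a) * (ν - ν / T) ^ K) := Nat.mul_le_mul_left _ ih
      _ = (c - a) * (ν - ν / T) ^ (K + 1) := by ring

end Pool.Agent.PQ
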